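import Pool.Agent.Helper54.SR.Defs

/-!
# SR-D13a: functions with prescribed residues at finitely many places
-/

set_option autoImplicit false
open scoped Pointwise
open Polynomial Pool.Agent.Helper54.PW

namespace Pool.Agent.Helper54.SR

private theorem er_pk {k F : Type} [Field k] [Field F] [Algebra (RatFunc k) F]
    (A : ValuationSubring F) (hA : IsPl k A) (hX : tX k F ∈ A) (f : k[X]) : pk k F f ∈ A := by
  induction f using Polynomial.induction_on' with
  | add p q hp hq =>
    rw [map_add]
    exact A.add_mem _ _ hp hq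
  | monomial n a =>
    have h1 : pk k F (monomial n a) = co k F a * tX k F ^ n := by
      rw [← C_mul_X_pow_eq_monomial, map_mul, map_pow]
      congr 1
    rw [h1]
    exact A.mul_mem _ _ (hA.2 a) (pow_mem hX n)

private theorem er_int {k F : Type} [Field k] [Field F] [Algebra (RatFunc k) F]
    (A : ValuationSubring F) (hA : ∀ f, pk k F f ∈ A) {x : F}
    (hx : (pk k F).IsIntegralElem x) : x ∈ A := by
  obtain ⟨q, hq, hq0⟩ := hx
  have h1 : IsIntegral A x := by
    refine ⟨q.map ((pk k F).codRestrict A hA), hq.map _, ?_⟩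
    rw [eval₂_map]
    exact hq0
  obtain ⟨y, hy⟩ := IsIntegrallyClosed.isIntegral_iff.1 h1
  rw [← hy]
  exact y.2

/-- in a Dedekind domain two elements divide each other in one direction off a prime -/
private theorem er_div {B : Type} [CommRing B] [IsDedekindDomain B] (P : Ideal B)
    [hP : P.IsPrime] (hb : P ≠ ⊥) (a b : B) :
    ∃ c s : B, s ∉ P ∧ (a * s = b * c ∨ b * s = a * c) := by
  have : IsDiscreteValuationRing (Localization.AtPrime P) :=
    IsLocalization.AtPrime.isDiscreteValuationRing_of_dedekind_domain B hb _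
  have hinj : Function.Injective (algebraMap B (Localization.AtPrime P)) :=
    IsLocalization.injective _ P.primeCompl_le_nonZeroDivisors
  have key : ∀ a b : B, algebraMap B (Localization.AtPrime P) b ∣
      algebraMap B (Localization.AtPrime P) a → ∃ c s : B, s ∉ P ∧ a * s = b * c := by
    rintro a b ⟨z, hz⟩
    obtain ⟨c, s, rfl⟩ := IsLocalization.exists_mk'_eq P.primeCompl z
    refine ⟨c, s, s.2, hinj ?_⟩
    rw [map_mul, map_mul, hz, mul_assoc, IsLocalization.mk'_spec]
  rcases ValuationRing.dvd_total (algebraMap B (Localization.AtPrime P) b)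
    (algebraMap B (Localization.AtPrime P) a) with h | h
  · obtain ⟨c, s, hs, h1⟩ := key a b h
    exact ⟨c, s, hs, Or.inl h1⟩
  · obtain ⟨c, s, hs, h1⟩ := key b a h
    exact ⟨c, s, hs, Or.inr h1⟩

variable {k F : Type} [Field k] [IsAlgClosed k] [Field F] [Algebra (RatFunc k) F]
  [FiniteDimensional (RatFunc k) F] [IsGalois (RatFunc k) F]

/-- SR-D13a -/
theorem exists_residues (S : Finset (ValuationSubring F))
    (hS : ∀ A ∈ S, IsPl k A ∧ tX k F ∈ A) (c : ValuationSubring F → k) :
    ∃ y : F, (pk k F).IsIntegralElem y ∧ (∀ A, IsPl k A → tX k F ∈ A → y ∈ A) ∧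
      ∀ A ∈ S, y - co k F (c A) ∈ A.nonunits := by
  let : Algebra k[X] F := (pk k F).toAlgebra
  have : IsScalarTower k[X] (RatFunc k) F := IsScalarTower.of_algebraMap_eq' rfl
  have : IsDedekindDomain (integralClosure k[X] F) :=
    integralClosure.isDedekindDomain k[X] (RatFunc k) F
  have : IsFractionRing (integralClosure k[X] F) F :=
    integralClosure.isFractionRing_of_finite_extension (RatFunc k) F
  have hint : ∀ x : integralClosure k[X] F, (pk k F).IsIntegralElem (x : F) := fun x => x.2
  have hBA : ∀ A : ValuationSubring F, IsPl k A → tX k F ∈ A →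
      ∀ x : integralClosure k[X] F, (x : F) ∈ A := fun A hA hX x =>
    er_int A (er_pk A hA hX) (hint x)
  let P : S → Ideal (integralClosure k[X] F) := fun i =>
    (IsLocalRing.maximalIdeal i.1).comap
      ((algebraMap (integralClosure k[X] F) F).codRestrict i.1
        (hBA i.1 (hS i.1 i.2).1 (hS i.1 i.2).2))
  have hP : ∀ (i : S) (x : integralClosure k[X] F), x ∈ P i ↔ (x : F) ∈ i.1.nonunits :=
    fun i x => (ValuationSubring.coe_mem_nonunits_iff (A := i.1)
      (a := (algebraMap (integralClosure k[X] F) F).codRestrict i.1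
        (hBA i.1 (hS i.1 i.2).1 (hS i.1 i.2).2) x)).symm
  have hBi : ∀ (i : S) (x : integralClosure k[X] F), (x : F) ∈ i.1 := fun i x =>
    hBA i.1 (hS i.1 i.2).1 (hS i.1 i.2).2 x
  -- elements off `P i` are invertible in the valuation ring
  have hinv : ∀ (i : S) (x : integralClosure k[X] F), x ∉ P i → (x : F) ≠ 0 ∧ (x : F)⁻¹ ∈ i.1 := by
    intro i x hx
    rw [hP, ValuationSubring.mem_nonunits_iff_or] at hx
    push Not at hx
    exact hx
  have hprime : ∀ i, (P i).IsPrime := fun i => Ideal.comap_isPrime _ _
  have hbot : ∀ i, P i ≠ ⊥ := by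
    intro i h
    apply (hS i.1 i.2).1.1
    rw [eq_top_iff]
    intro x _
    obtain ⟨a, b, hb, rfl⟩ := IsFractionRing.div_surjective (A := integralClosure k[X] F) x
    have hb0 : b ≠ 0 := nonZeroDivisors.ne_zero hb
    have h1 : b ∉ P i := by
      rw [h]
      exact hb0
    rw [div_eq_mul_inv]
    exact i.1.mul_mem _ _ (hBi i a) (hinv i b h1).2
  have hmax : ∀ i, (P i).IsMaximal := fun i => (hprime i).isMaximal (hbot i)
  have hle : ∀ i j, P i = P j → i.1 ≤ j.1 := by
    intro i j hij x hx
    obtain ⟨a, b, hb, rfl⟩ := IsFractionRing.div_surjective (A := integralClosure k[X] F) x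
    have hb0 : b ≠ 0 := nonZeroDivisors.ne_zero hb
    have hb0' : (b : F) ≠ 0 := fun h => hb0 (Subtype.ext h)
    have := hprime i
    obtain ⟨c, s, hs, h | h⟩ := er_div (P i) (hbot i) a b
    · have hs' : s ∉ P j := hij ▸ hs
      have h1 := hinv j s hs'
      have h2 : (a : F) * s = b * c := by
        have := congrArg (Subtype.val) h
        simpa using this
      have h3 : algebraMap (integralClosure k[X] F) F a / algebraMap (integralClosure k[X] F) F b =
          (c : F) * (s : F)⁻¹ := by
        show (a : F) / (b : F) = _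
        rw [div_eq_iff hb0', eq_comm, mul_assoc, mul_comm, mul_assoc, ← h2, mul_comm (s : F)⁻¹,
          mul_inv_cancel_right₀ h1.1]
      rw [h3]
      exact j.1.mul_mem _ _ (hBi j c) h1.2
    · have h1 := hinv i s hs
      have h2 : (b : F) * s = a * c := by
        have := congrArg (Subtype.val) h
        simpa using this
      have hc0 : (c : F) ≠ 0 := by
        intro h3
        rw [h3, mul_zero] at h2
        exact (mul_ne_zero hb0' h1.1) h2
      have h4 : (c : F)⁻¹ = (a : F) / b * (s : F)⁻¹ := by
        have hs0 := h1.1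
        field_simp
        linear_combination h2
      have hc : c ∉ P i := by
        rw [hP, ValuationSubring.mem_nonunits_iff_or]
        push Not
        refine ⟨hc0, ?_⟩
        rw [h4]
        exact i.1.mul_mem _ _ hx h1.2
      have hc' : c ∉ P j := hij ▸ hc
      have h5 := hinv j c hc'
      have h6 : algebraMap (integralClosure k[X] F) F a / algebraMap (integralClosure k[X] F) F b =
          (s : F) * (c : F)⁻¹ := by
        show (a : F) / (b : F) = _
        rw [h4]
        have hs0 := h1.1
        field_simp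
      rw [h6]
      exact j.1.mul_mem _ _ (hBi j s) h5.2
  have hcop : Pairwise (Function.onFun IsCoprime P) := by
    intro i j hij
    show IsCoprime (P i) (P j)
    rw [Ideal.isCoprime_iff_sup_eq]
    refine (hmax i).coprime_of_ne (hmax j) fun h => hij ?_
    exact Subtype.ext (le_antisymm (hle i j h) (hle j i h.symm))
  obtain ⟨y, hy⟩ := Ideal.exists_forall_sub_mem_ideal hcop
    (fun i => algebraMap k[X] (integralClosure k[X] F) (C (c i.1)))
  refine ⟨y, hint y, fun A hA hX => hBA A hA hX y, fun A hA => ?_⟩
  have h1 := (hP ⟨A, hA⟩ _).1 (hy ⟨A, hA⟩)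
  have h2 : ((y - algebraMap k[X] (integralClosure k[X] F) (C (c A)) :
      integralClosure k[X] F) : F) = (y : F) - co k F (c A) := by
    show (y : F) - pk k F (C (c A)) = _
    congr 1
  rw [← h2]
  exact h1

end Pool.Agent.Helper54.SR
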